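import Pool.Agent.L5helper51.MD.Fun
import Pool.Agent.Y602.ST.Comp

set_option autoImplicit false

namespace Pool.Agent.Results.MP_bced1d_lc.SoficDegreeNotSFT

open Pool.Agent.H715R3.Sof (RecursivelyPresented IsSofic IsSFT MedvedevLe pull
  computable_of_reduction)
open Pool.Agent.Y602.ST (medv_trans)
open Pool.Agent.L5helper51.MD

/-- There are a finitely generated recursively presented group `G` and a nonempty sofic
`G`-subshift `Y` whose Medvedev degree is the Medvedev degree of no `G`-subshift of finite type: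
the sets of Medvedev degrees of `G`-subshifts of finite type and of sofic `G`-subshifts differ. -/
theorem result : ∃ (G : Type) (_ : Group G) (r : ℕ) (gens : Fin r → G),
    RecursivelyPresented gens ∧
    ∃ (l : ℕ) (Y : Set (G → Fin l)), Y.Nonempty ∧ IsSofic Y ∧
      ∀ (k : ℕ) (X : Set (G → Fin k)), IsSFT X →
        ¬ (MedvedevLe (pull gens X) (pull gens Y) ∧ MedvedevLe (pull gens Y) (pull gens X)) := by
  refine ⟨G2, inferInstance, 100, gens2, rp2, 6, YY, YY_nonempty, YY_sofic, ?_⟩
  rintro k X hX ⟨h1, h2⟩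
  rcases dichotomy hX with ⟨y, hy, hyc⟩ | h3
  · obtain ⟨f, hf, hfm, hfr⟩ := h2
    obtain ⟨x, hx, hxr⟩ := hfr y hy
    exact YY_no_computable hx (computable_of_reduction hf hfm hyc hxr)
  · exact dnr_sep (medv_trans h3 (medv_trans h1 YY_le))

end Pool.Agent.Results.MP_bced1d_lc.SoficDegreeNotSFT
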